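import Pool.Agent.Helper819.Gr.Scheme
import Pool.Agent.Helper819.Gr.N2

/-!
For all `n ≥ 2` and `d ≥ 3` the morphism `ℙX_n^d // SL_n ⟶ Z_n^{d-1} // SL_n` of quotients
induced by the gradient morphism is a closed immersion.
-/

namespace Pool.Agent.Results.MP_4fcc12_ag.ClosedImmersion

open Pool.Agent.Helper819.GradMap

theorem result (n d : ℕ) (hn : 2 ≤ n) (hd : 3 ≤ d) :
    AlgebraicGeometry.IsClosedImmersion (quotGrad n d hd) := by
  obtain ⟨N, rfl⟩ : ∃ N, n = N + 1 := ⟨n - 1, by omega⟩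
  obtain ⟨e, rfl⟩ : ∃ e, d = e + 1 := ⟨d - 1, by omega⟩
  exact AlgebraicGeometry.IsClosedImmersion.spec_of_surjective _ (pullback_surjective hd)

end Pool.Agent.Results.MP_4fcc12_ag.ClosedImmersion
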