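import Pool.Agent.Helper56.Quot.Scheme

namespace Pool.Agent.Results.MP_4fcc12_ag.ClosedInAffineOpen

open MvPolynomial Pool.Agent.Helper56.Disc Pool.Agent.Helper56.Ulr Pool.Agent.Helper56.Quot

/-- For all `n ≥ 2` and `d ≥ 3`: every `n`-tuple of forms of degree `d - 1` with nonzero resultant
has exactly one associated form, there is exactly one morphism `G` from the quotient of `Z` by
`SL_n` to the quotient of the semistable points of the projective space of forms of degree
`n (d - 2)` by `SL_n` that is induced by the associated form, and `G` is an isomorphism onto a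
closed subscheme of an affine open subset of the target. -/
theorem result (n d : ℕ) (hn : 2 ≤ n) (hd : 3 ≤ d) :
    (∀ t : regTuples n (d - 1), ∃! c : Mon n (n * (d - 2)) → ℂ,
      IsAssociated d (tup t.1) (form c)) ∧
    (∃! G : quotZ n d ⟶ quotP n (n * (d - 2)), IsInduced G) ∧
    ∀ G : quotZ n d ⟶ quotP n (n * (d - 2)), IsInduced G → IsClosedInAffineOpen G := by
  obtain ⟨G, hG, hG2⟩ := exists_closed' hn hd
  refine ⟨exists_unique_assoc hd, ⟨G, hG, fun G' hG' => induced_unique' hn hd G' G hG' hG⟩, ?_⟩
  intro G' hG'
  rw [induced_unique' hn hd G' G hG' hG]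
  exact hG2

end Pool.Agent.Results.MP_4fcc12_ag.ClosedInAffineOpen
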